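import Mathlib
import Pool.Agent.AddLim.Final

/-!
A ring `R` and right/left `R`-modules `M`, `N` such that `N` is the direct limit of a sequence of
modules isomorphic to the countable direct sum of copies of `M`, but `N` is not a direct limit of
direct summands of finite direct sums of copies of `M`.  This answers question Q2 negatively.
-/

set_option autoImplicit false
open CategoryTheory

namespace Pool.Agent.Results.MP_e6182f_al.SingleModule

/-- `X` belongs to `add M`: it is a direct summand of a finite direct sum of copies of `M`. -/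
def IsAdd {R : Type} [Ring R] (M X : ModuleCat.{0} R) : Prop :=
  ∃ (n : ℕ) (f : (X : Type) →ₗ[R] DirectSum (Fin n) (fun _ => (M : Type)))
    (g : DirectSum (Fin n) (fun _ => (M : Type)) →ₗ[R] (X : Type)), g ∘ₗ f = LinearMap.id

/-- There are a ring `R` and modules `M`, `N` such that `N` is the direct limit of a sequence of
modules isomorphic to the countable direct sum of copies of `M`, and `N` is not the colimit of any
small filtered diagram of modules in `add M`. -/
theorem result :
    ∃ (R : Type) (_ : Ring R) (M N : ModuleCat.{0} R),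
      (∃ F : ℕ ⥤ ModuleCat.{0} R,
        (∀ n, Nonempty (F.obj n ≅ ModuleCat.of R (DirectSum ℕ (fun _ => (M : Type))))) ∧
        ∃ c : Limits.Cocone F, Nonempty (Limits.IsColimit c) ∧ Nonempty (c.pt ≅ N)) ∧
      ¬ (∃ (J : Type) (_ : SmallCategory J) (_ : IsFiltered J) (F : J ⥤ ModuleCat.{0} R),
        (∀ j, IsAdd M (F.obj j)) ∧
        ∃ c : Limits.Cocone F, Nonempty (Limits.IsColimit c) ∧ Nonempty (c.pt ≅ N)) := by
  refine ⟨AddLim.RR, inferInstance, AddLim.MC, AddLim.Nlim, ?_, ?_⟩
  · refine ⟨AddLim.FF, ?_, Limits.colimit.cocone AddLim.FF,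
      ⟨Limits.colimit.isColimit AddLim.FF⟩, ⟨Iso.refl _⟩⟩
    intro n
    have e : AddLim.PP ≃ₗ[AddLim.RR] DirectSum ℕ (fun _ => AddLim.MM) :=
      DirectSum.lequivCongrLeft AddLim.RR (Denumerable.eqv (Option ℕ))
    exact ⟨LinearEquiv.toModuleIso e⟩
  · rintro ⟨J, hJ, hJ', F, hF, hc⟩
    refine AddLim.not_fin ⟨J, hJ, hJ', F, ?_, hc⟩
    intro j
    obtain ⟨n, f, g, hfg⟩ := hF j
    exact ⟨n, fun _ => AddLim.MC, fun _ => rfl, f, g, hfg⟩

end Pool.Agent.Results.MP_e6182f_al.SingleModule
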